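import Pool.Agent.H66.L.S8.Y504.CO.Stm

/-!
# CO-T0 (job 8944): limits of almost closed orbit segments (helper96)
-/

set_option autoImplicit false

open scoped Topology
open Filter Set Metric TopologicalSpace

universe u

namespace Pool.Agent.Y96.CO.T0

open Pool.Agent.TH80.OMS Pool.Agent.Y504.CO

variable {X : Type u} [MetricSpace X] [CompactSpace X]

/-- uniform continuity -/
theorem unif (f : X ≃ₜ X) (ε : ℝ) (hε : 0 < ε) :
    ∃ δ : ℝ, 0 < δ ∧ ∀ a b : X, dist a b < δ → dist (f a) (f b) < ε := by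
  obtain ⟨δ, hδ, h⟩ := Metric.uniformContinuous_iff.1
    (CompactSpace.uniformContinuous_of_continuous f.continuous) ε hε
  exact ⟨δ, hδ, fun a b hab => h hab⟩

theorem part_a (f : X ≃ₜ X) (p : ℕ → X) (n : ℕ → ℕ) (hn : ∀ k, 1 ≤ n k)
    (hd : Tendsto (fun k => dist (f^[n k] (p k)) (p k)) atTop (𝓝 0)) :
    ∃ (φ : ℕ → ℕ) (H : Set X), StrictMono φ ∧ IsClosed H ∧ H.Nonempty ∧
      ∀ ε : ℝ, 0 < ε → ∀ᶠ k in atTop, Seg f H ε (p (φ k)) (n (φ k)) := by
  let S : ℕ → NonemptyCompacts X := fun k =>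
    ⟨⟨(fun i => f^[i] (p k)) '' Iic (n k), ((finite_Iic (n k)).image _).isCompact⟩,
      ⟨_, mem_image_of_mem _ (mem_Iic.2 (Nat.zero_le _))⟩⟩
  obtain ⟨a, φ, hφ, ha⟩ := CompactSpace.tendsto_subseq S
  refine ⟨φ, (a : Set X), hφ, a.isCompact.isClosed, a.nonempty, ?_⟩
  intro ε hε
  have h1 : ∀ᶠ k in atTop, dist (S (φ k)) a < ε :=
    (Metric.tendsto_nhds.1 ha) ε hε
  have h2 : ∀ᶠ k in atTop, dist (f^[n (φ k)] (p (φ k))) (p (φ k)) < ε := by
    have := (hd.comp hφ.tendsto_atTop)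
    exact this.eventually (gt_mem_nhds hε)
  filter_upwards [h1, h2] with k h1 h2
  rw [NonemptyCompacts.dist_eq] at h1
  have hfin : hausdorffEDist (S (φ k) : Set X) (a : Set X) ≠ ⊤ :=
    hausdorffEDist_ne_top_of_nonempty_of_bounded (S (φ k)).nonempty a.nonempty
      (S (φ k)).isCompact.isBounded a.isCompact.isBounded
  refine ⟨hn _, h2, ?_, ?_⟩
  · intro i hi
    have hmem : f^[i] (p (φ k)) ∈ (S (φ k) : Set X) := mem_image_of_mem _ (mem_Iic.2 hi)
    exact exists_dist_lt_of_hausdorffDist_lt hmem h1 hfin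
  · intro y hy
    obtain ⟨x, hx, hxy⟩ := exists_dist_lt_of_hausdorffDist_lt' hy h1 hfin
    obtain ⟨i, hi, rfl⟩ := hx
    exact ⟨i, mem_Iic.1 hi, hxy⟩

theorem part_b (f : X ≃ₜ X) (H : Set X) (hH : IsLim f H) : f '' H = H := by
  obtain ⟨hcl, -, hseg⟩ := hH
  apply Subset.antisymm
  · rintro _ ⟨y, hy, rfl⟩
    rw [← hcl.closure_eq, Metric.mem_closure_iff]
    intro ε' hε'
    obtain ⟨δ, hδ, hf⟩ := unif f (ε' / 2) (by linarith)
    obtain ⟨p, n, hs⟩ := hseg (min (δ / 2) (ε' / 2)) (lt_min (by linarith) (by linarith))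
    obtain ⟨i, hi, hiy⟩ := hs.dense y hy
    rcases hi.lt_or_eq with hlt | heq
    · obtain ⟨h, hh, hd⟩ := hs.near (i + 1) hlt
      refine ⟨h, hh, ?_⟩
      rw [Function.iterate_succ_apply'] at hd
      have h1 := hf _ _ (lt_of_lt_of_le hiy ((min_le_left _ _).trans (by linarith)))
      have h2 := dist_triangle_left (f y) h (f (f^[i] p))
      have h3 := lt_of_lt_of_le hd (min_le_right _ _)
      linarith
    · subst heq
      obtain ⟨h, hh, hd⟩ := hs.near 1 hs.n1
      refine ⟨h, hh, ?_⟩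
      rw [Function.iterate_one] at hd
      have h0 : dist p y < δ := by
        have h1 := dist_triangle_left p y (f^[i] p)
        have h2 := lt_of_lt_of_le hs.ends (min_le_left _ _)
        have h3 := lt_of_lt_of_le hiy (min_le_left _ _)
        linarith
      have h1 := hf _ _ h0
      have h2 := dist_triangle_left (f y) h (f p)
      have h3 := lt_of_lt_of_le hd (min_le_right _ _)
      linarith
  · intro y hy
    have hcl' : IsClosed (f '' H) := f.isClosedMap _ hcl
    rw [← hcl'.closure_eq, Metric.mem_closure_iff]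
    intro ε' hε'
    obtain ⟨δ, hδ, hf⟩ := unif f (ε' / 2) (by linarith)
    obtain ⟨p, n, hs⟩ := hseg (min δ (ε' / 4)) (lt_min hδ (by linarith))
    obtain ⟨i, hi, hiy⟩ := hs.dense y hy
    have e0 := lt_of_lt_of_le hiy (min_le_right _ _)
    rcases i with _ | j
    · obtain ⟨m, hm⟩ : ∃ m, n = m + 1 := ⟨n - 1, by have := hs.n1; omega⟩
      obtain ⟨h, hh, hd⟩ := hs.near m (by omega)
      refine ⟨f h, mem_image_of_mem _ hh, ?_⟩
      have h1 := hf _ _ (lt_of_lt_of_le hd (min_le_left _ _))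
      rw [← Function.iterate_succ_apply' (f := f), show m.succ = n from hm.symm] at h1
      have h2 := lt_of_lt_of_le hs.ends (min_le_right _ _)
      have h3 := dist_triangle_left y (f h) p
      have h4 := dist_triangle_left p (f h) (f^[n] p)
      rw [Function.iterate_zero, id] at e0
      linarith
    · obtain ⟨h, hh, hd⟩ := hs.near j (by omega)
      refine ⟨f h, mem_image_of_mem _ hh, ?_⟩
      have h1 := hf _ _ (lt_of_lt_of_le hd (min_le_left _ _))
      rw [← Function.iterate_succ_apply' (f := f)] at h1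
      have h3 := dist_triangle_left y (f h) (f^[j + 1] p)
      linarith

theorem part_c (f : X ≃ₜ X) (H : Set X) (hH : IsLim f H) (hΩ : (Omega f).Countable) :
    H.Countable := by
  obtain ⟨-, -, hseg⟩ := hH
  have hiso : ∀ y ∈ H \ Omega f, ∃ W : Set X, IsOpen W ∧ W ∩ (H \ Omega f) = {y} := by
    rintro y ⟨hyH, hyΩ⟩
    have h1 : ∃ W : Set X, IsOpen W ∧ y ∈ W ∧ ∀ k : ℕ, 1 ≤ k → ∀ z ∈ W, f^[k] z ∉ W := by
      by_contra hc
      apply hyΩ
      intro W hW hyW
      by_contra hc2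
      apply hc
      refine ⟨W, hW, hyW, fun k hk z hz hfz => hc2 ⟨k, hk, z, hz, hfz⟩⟩
    obtain ⟨W, hW, hyW, hret⟩ := h1
    refine ⟨W, hW, ?_⟩
    ext y'
    constructor
    · rintro ⟨hy'W, hy'H, -⟩
      by_contra hne
      have hne' : y' ≠ y := hne
      obtain ⟨ε1, hε1, hb1⟩ := Metric.isOpen_iff.1 hW y hyW
      obtain ⟨ε2, hε2, hb2⟩ := Metric.isOpen_iff.1 hW y' hy'W
      have hd : 0 < dist y' y := dist_pos.2 hne'
      have hε : 0 < min (min ε1 ε2) (dist y' y / 2) := lt_min (lt_min hε1 hε2) (by linarith)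
      obtain ⟨p, n, hs⟩ := hseg _ hε
      obtain ⟨i, hi, hiy⟩ := hs.dense y hyH
      obtain ⟨j, hj, hjy⟩ := hs.dense y' hy'H
      have a1 : f^[i] p ∈ W := hb1 (mem_ball.2
        (lt_of_lt_of_le hiy ((min_le_left _ _).trans (min_le_left _ _))))
      have a2 : f^[j] p ∈ W := hb2 (mem_ball.2
        (lt_of_lt_of_le hjy ((min_le_left _ _).trans (min_le_right _ _))))
      rcases lt_trichotomy i j with h | h | h
      · have := hret (j - i) (by omega) _ a1
        rw [← Function.iterate_add_apply, Nat.sub_add_cancel h.le] at this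
        exact this a2
      · subst h
        have h1 := dist_triangle_left y' y (f^[i] p)
        have h2 := lt_of_lt_of_le hiy (min_le_right _ _)
        have h3 := lt_of_lt_of_le hjy (min_le_right _ _)
        linarith
      · have := hret (i - j) (by omega) _ a2
        rw [← Function.iterate_add_apply, Nat.sub_add_cancel h.le] at this
        exact this a1
    · rintro rfl
      exact ⟨hyW, hyH, hyΩ⟩
  have hdisc : DiscreteTopology ↥(H \ Omega f) := discreteTopology_subtype_iff'.2 hiso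
  have hc : (H \ Omega f).Countable := by
    have : Countable ↥(H \ Omega f) := separableSpace_iff_countable.1 inferInstance
    exact countable_coe_iff.1 this
  refine (hc.union hΩ).mono ?_
  intro y hy
  by_cases h : y ∈ Omega f
  · exact Or.inr h
  · exact Or.inl ⟨hy, h⟩

omit [CompactSpace X] in
/-- the segment stays near `P` -/
theorem stay {f : X ≃ₜ X} {H P Q : Set X} {δ ε : ℝ} {p : X} {n : ℕ} (hPQ : P ∪ Q = H)
    (hth : Disjoint (thickening δ P) (thickening δ Q)) (hP : ∀ x ∈ P, f x ∈ P)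
    (hε : ε ≤ δ) (hf : ∀ a b : X, dist a b < ε → dist (f a) (f b) < δ) (hs : Seg f H ε p n)
    (h0 : ∃ h ∈ P, dist p h < ε) : ∀ i ≤ n, ∃ h ∈ P, dist (f^[i] p) h < ε := by
  intro i
  induction i with
  | zero => exact fun _ => h0
  | succ i ih =>
    intro hi
    obtain ⟨h, hh, hd⟩ := ih (by omega)
    obtain ⟨h', hh', hd'⟩ := hs.near (i + 1) hi
    rw [← hPQ] at hh'
    rcases hh' with hh' | hh'
    · exact ⟨h', hh', hd'⟩
    · exfalso
      have a1 : f^[i + 1] p ∈ thickening δ Q :=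
        mem_thickening_iff.2 ⟨h', hh', lt_of_lt_of_le hd' hε⟩
      have a2 : f^[i + 1] p ∈ thickening δ P := by
        refine mem_thickening_iff.2 ⟨f h, hP h hh, ?_⟩
        rw [Function.iterate_succ_apply']
        exact hf _ _ hd
      exact disjoint_left.1 hth a2 a1

theorem part_d (f : X ≃ₜ X) (H P Q : Set X) (hH : IsLim f H) (hPc : IsClosed P)
    (hQc : IsClosed Q) (hPQ : P ∪ Q = H) (hdis : Disjoint P Q) (hP : ∀ x ∈ P, f x ∈ P)
    (hQ : ∀ x ∈ Q, f x ∈ Q) (hPn : P.Nonempty) : Q = ∅ := by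
  by_contra hQn
  obtain ⟨q, hq⟩ := nonempty_iff_ne_empty.2 hQn
  obtain ⟨p0, hp0⟩ := hPn
  obtain ⟨-, -, hseg⟩ := hH
  obtain ⟨δ, hδ, hth⟩ := hdis.exists_thickenings hPc.isCompact hQc
  obtain ⟨η, hη, hf⟩ := unif f δ hδ
  obtain ⟨p, n, hs⟩ := hseg (min η δ) (lt_min hη hδ)
  have hf' : ∀ a b : X, dist a b < min η δ → dist (f a) (f b) < δ :=
    fun a b hab => hf a b (lt_of_lt_of_le hab (min_le_left _ _))
  obtain ⟨h, hh, hd⟩ := hs.near 0 (Nat.zero_le _)
  rw [Function.iterate_zero, id] at hd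
  rw [← hPQ] at hh
  rcases hh with hh | hh
  · obtain ⟨i, hi, hiq⟩ := hs.dense q (by rw [← hPQ]; exact Or.inr hq)
    obtain ⟨h', hh', hd'⟩ := stay hPQ hth hP (min_le_right _ _) hf' hs ⟨h, hh, hd⟩ i hi
    exact disjoint_left.1 hth
      (mem_thickening_iff.2 ⟨h', hh', lt_of_lt_of_le hd' (min_le_right _ _)⟩)
      (mem_thickening_iff.2 ⟨q, hq, lt_of_lt_of_le hiq (min_le_right _ _)⟩)
  · obtain ⟨i, hi, hiq⟩ := hs.dense p0 (by rw [← hPQ]; exact Or.inl hp0)
    obtain ⟨h', hh', hd'⟩ := stay (by rw [union_comm]; exact hPQ) hth.symm hQ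
      (min_le_right _ _) hf' hs ⟨h, hh, hd⟩ i hi
    exact disjoint_left.1 hth
      (mem_thickening_iff.2 ⟨p0, hp0, lt_of_lt_of_le hiq (min_le_right _ _)⟩)
      (mem_thickening_iff.2 ⟨h', hh', lt_of_lt_of_le hd' (min_le_right _ _)⟩)

theorem main : S_T0.{u} := by
  intro X _ _ f
  exact ⟨part_a f, part_b f, part_c f, part_d f⟩

end Pool.Agent.Y96.CO.T0
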